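import Pool.Agent.N168.TP.Roots
import Pool.Agent.Y158.FQ.Hil

/-!
# Kummer classes which are unramified outside `ℓ`
-/

set_option autoImplicit false
set_option linter.all false

open Polynomial FF Pool.Agent.Y157.PS Pool.Agent.TH954 IsDedekindDomain NumberField

namespace Pool.Agent.N168.TP

open Pool.Agent.Y158.GR (Above exists_above)
open Pool.Agent.Y158.FQ (rat_form exists_kum val_nat)

theorem rat_form_pow {ℓ : ℕ} [hp : Fact ℓ.Prime] (hodd : Odd ℓ) (n : ℕ) :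
    ∀ t : ℚ, t ≠ 0 → (∀ v : HeightOneSpectrum (𝓞 ℚ), (ℓ : 𝓞 ℚ) ∉ v.asIdeal →
      ∃ γ : WithZero (Multiplicative ℤ), v.valuation ℚ t = γ ^ (ℓ ^ n)) →
    ∃ (i : ℤ) (k : ℚ), k ≠ 0 ∧ t = (ℓ : ℚ) ^ i * k ^ (ℓ ^ n) := by
  induction n with
  | zero => exact fun t ht _ => ⟨0, t, ht, by rw [zpow_zero, one_mul, pow_zero, pow_one]⟩
  | succ n ih =>
    intro t ht h
    obtain ⟨i, k, hk, hik⟩ := rat_form hodd t ht fun v hv => by
      obtain ⟨γ, hγ⟩ := h v hv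
      exact ⟨γ ^ (ℓ ^ n), by rw [hγ, ← pow_mul, ← pow_succ]⟩
    obtain ⟨j, k', hk', hjk⟩ := ih k hk fun v hv => by
      obtain ⟨γ, hγ⟩ := h v hv
      refine ⟨γ, ?_⟩
      have h1 : (v.valuation ℚ k) ^ ℓ = (γ ^ (ℓ ^ n)) ^ ℓ := by
        rw [← pow_mul, ← pow_succ, ← hγ, hik, map_mul, map_pow, map_zpow₀, val_nat hv, one_zpow,
          one_mul]
      exact (pow_left_inj₀ zero_le zero_le hp.out.ne_zero).1 h1
    have hℓ0 : (ℓ : ℚ) ≠ 0 := by exact_mod_cast hp.out.ne_zero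
    refine ⟨i + j * ℓ, k', hk', ?_⟩
    rw [hik, hjk, mul_pow, ← pow_mul, ← pow_succ, zpow_add₀ hℓ0, zpow_mul, zpow_natCast]
    ring

section

variable {F Ω B : Type} [Field F] [Field Ω] [Field B] [Algebra ℚ F] [Algebra F Ω]
  [Algebra ℚ Ω] [Algebra ℚ B] [IsScalarTower ℚ F Ω] [Algebra.IsAlgebraic F Ω] [IsAlgClosure ℚ B]

/-- the Kummer class of `y` along the section is a power of `ℓ` if it is unramified outside `ℓ` -/
theorem kum_class {ℓ : ℕ} [hp : Fact ℓ.Prime] (hodd : Odd ℓ) (N : IntermediateField F Ω)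
    (s : GalSection ℚ F N B) (y : F) (hy : y ≠ 0) (n : ℕ) (z₀ : N)
    (hz : z₀ ^ (ℓ ^ n) = algebraMap F N y)
    (hunr : ∀ V : ValuationSubring B, IsU V (ℓ : B) → ∀ σ : B ≃ₐ[ℚ] B, Ine V σ →
      s.s σ z₀ = z₀) :
    ∃ (i : ℤ) (z : N), (∀ g, s.s g z = z) ∧
      algebraMap F N y = algebraMap ℚ N ((ℓ : ℚ) ^ i) * z ^ (ℓ ^ n) := by
  have hm : 0 < ℓ ^ n := pow_pos hp.out.pos n
  haveI : IsAlgClosed B := IsAlgClosure.isAlgClosed ℚ
  haveI : CharZero B := charZero_of_injective_algebraMap (algebraMap ℚ B).injective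
  have hz0 : z₀ ≠ 0 := by
    rintro rfl
    rw [zero_pow hm.ne'] at hz
    exact hy ((map_eq_zero (algebraMap F N)).1 hz.symm)
  letI iBN : Algebra B N := (s.j : B →+* N).toAlgebra
  have hroot : ∀ g, ∃ c : B, c ^ (ℓ ^ n) = 1 ∧ s.j c = s.s g z₀ / z₀ := by
    intro g
    have h1 : (s.s g z₀ / z₀) ^ (ℓ ^ n) = 1 := by
      rw [div_pow, ← map_pow, hz, (s.s g).commutes, div_self]
      rw [← hz]
      exact pow_ne_zero _ hz0
    obtain ⟨c, hc, hc'⟩ := Pool.Agent.Y748.PS.rou_const (κ := B) hm h1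
    exact ⟨c, hc, hc'⟩
  choose ξ hξ hξ' using hroot
  have hinj : Function.Injective s.j := s.j.toRingHom.injective
  have hfix : ∀ g, s.s g z₀ = s.j (ξ g) * z₀ := fun g => by
    rw [hξ', div_mul_cancel₀ _ hz0]
  obtain ⟨c, hc0, hc, t, ht⟩ := exists_kum hm (k := ℚ) (κ := B) ξ hξ (fun σ τ => by
      apply hinj
      rw [map_mul, ← s.sec, hξ', hξ', hξ', map_mul]
      rw [AlgEquiv.mul_apply, map_div₀]
      have h1 : s.s σ z₀ ≠ 0 := (map_ne_zero_iff _ (s.s σ).injective).2 hz0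
      field_simp) (by
      obtain ⟨E, hE, hE'⟩ := Pool.Agent.Y157.PS.cont_fix s.s s.cont z₀
      refine ⟨E, hE, fun σ hσ => ?_⟩
      apply hinj
      rw [hξ', hE' σ hσ, div_self hz0, map_one])
  have ht0 : t ≠ 0 := by
    rintro rfl
    rw [map_zero] at ht
    exact pow_ne_zero _ hc0 ht.symm
  obtain ⟨i, k, hk, hik⟩ := rat_form_pow hodd n t ht0 fun v hv => by
    obtain ⟨V, hV⟩ := exists_above (K := ℚ) B v
    have hU : IsU V (ℓ : B) := by
      rw [← map_natCast (algebraMap ℚ B) ℓ, hV.isU]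
      exact val_nat hv
    obtain ⟨r, hr⟩ := hV.ine hv hc0 (fun σ hσ => by
      have h1 : ξ σ = 1 := by
        apply hinj
        rw [hξ', hunr V hU σ hσ, div_self hz0, map_one]
      have h2 := hc σ
      rw [h1, div_eq_one_iff_eq hc0] at h2
      exact h2)
    obtain ⟨hr0, hrU⟩ := hr
    refine ⟨v.valuation ℚ r, ?_⟩
    have h1 : IsU V (algebraMap ℚ B (t / r ^ (ℓ ^ n))) := by
      rw [map_div₀, map_pow, ht, ← div_pow]
      exact Pool.Agent.Y748.PS.isU_pow hrU _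
    rw [hV.isU, map_div₀, map_pow] at h1
    have h2 : v.valuation ℚ r ^ (ℓ ^ n) ≠ 0 := pow_ne_zero _ ((Valuation.ne_zero_iff _).2 hr0)
    exact (div_eq_one_iff_eq h2).1 h1
  have hj0 : s.j c ≠ 0 := (map_ne_zero_iff _ hinj).2 hc0
  have hfixQ : ∀ (q : ℚ) g, s.s g (algebraMap ℚ N q) = algebraMap ℚ N q := by
    intro q g
    rw [IsScalarTower.algebraMap_apply ℚ F N]
    exact (s.s g).commutes _
  refine ⟨i, algebraMap ℚ N k * (z₀ / s.j c), fun g => ?_, ?_⟩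
  · rw [map_mul, hfixQ, map_div₀, s.sec, hfix]
    have h1 : g c = ξ g * c := by rw [← hc g, div_mul_cancel₀ _ hc0]
    rw [h1, map_mul]
    congr 1
    have h2 : s.j (ξ g) ≠ 0 := by
      rw [map_ne_zero_iff _ hinj]
      intro h3
      have h4 := hξ g
      rw [h3, zero_pow hm.ne'] at h4
      exact zero_ne_one h4
    field_simp
  · have h1 : s.j c ^ (ℓ ^ n) = algebraMap ℚ N t := by
      rw [← map_pow, ← ht, AlgHom.commutes]
    rw [mul_pow, div_pow, hz, h1, hik, map_mul, map_pow]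
    have h2 : algebraMap ℚ N ((ℓ : ℚ) ^ i) ≠ 0 := by
      rw [_root_.map_ne_zero]
      exact zpow_ne_zero _ (by exact_mod_cast hp.out.ne_zero)
    have h3 : algebraMap ℚ N k ≠ 0 := (_root_.map_ne_zero _).2 hk
    field_simp

end

end Pool.Agent.N168.TP
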