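import Pool.Agent.Y158.FQ.Trip4
import Pool.Agent.Y809.PS.K0a

/-!
# The roots of `x` and `1 - x` in the pro-`ℓ` extension of the line minus three points
-/

set_option autoImplicit false
set_option linter.all false

open Polynomial FF

namespace Pool.Agent.N168.TP

open Pool.Agent.Y157.PS Pool.Agent.Y948.PS

/-- uniformisers of the rational function field -/
theorem unf0 {κ R Ω : Type} [Field κ] [IsAlgClosed κ] [Field R] [Field Ω] [Algebra κ R]
    [Algebra R Ω] [Algebra κ Ω] [IsScalarTower κ R Ω] [Algebra.IsAlgebraic R Ω] {x : R}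
    (hx : RatF κ x) (W : ValuationSubring Ω)
    (hκ : ∀ c : κ, algebraMap κ Ω c ∈ W) (hW : W ≠ ⊤) :
    ∃ π, Unf (⊥ : IntermediateField R Ω) W π := by
  have hRW : ∃ z : R, algebraMap R Ω z ∉ W := by
    by_contra hc
    push Not at hc
    exact hW (top_of_R W hc)
  have hmem : ∀ t ∈ (⊥ : IntermediateField R Ω), ∃ r : R, algebraMap R Ω r = t := by
    intro t ht
    rwa [IntermediateField.mem_bot] at ht
  rcases Pool.Agent.Y809.PS.place_or hκ hx hRW with ⟨b, hb, hb'⟩ | ⟨h1, h2⟩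
  · have hne : algebraMap R Ω x - algebraMap κ Ω b ≠ 0 := by
      intro h0
      apply hx.trans
      have h3 : x = algebraMap κ R b := by
        apply (algebraMap R Ω).injective
        rw [← IsScalarTower.algebraMap_apply]
        exact sub_eq_zero.1 h0
      rw [h3]
      exact isAlgebraic_algebraMap b
    refine ⟨algebraMap R Ω x - algebraMap κ Ω b, ?_, hne, hb, fun z hz hz0 => ?_⟩
    · rw [IsScalarTower.algebraMap_apply κ R Ω, ← map_sub]
      exact algebraMap_mem _ _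
    · obtain ⟨r, rfl⟩ := hmem z hz
      refine Pool.Agent.Y809.PS.val_R hκ hx _ ((Valuation.ne_zero_iff _).2 hne) (fun a => ?_) r
        (fun h => hz0 (by rw [h, map_zero]))
      by_cases hab : a = b
      · exact ⟨1, by rw [hab, zpow_one]⟩
      · exact ⟨0, by rw [hb' a hab, zpow_zero]⟩
  · have hne : algebraMap R Ω x ≠ 0 := by
      intro h0
      rw [h0, map_zero] at h1
      exact not_lt.2 zero_le h1
    refine ⟨(algebraMap R Ω x)⁻¹, ?_, inv_ne_zero hne, ?_, fun z hz hz0 => ?_⟩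
    · rw [← map_inv₀]
      exact algebraMap_mem _ _
    · rw [map_inv₀]
      exact inv_lt_one_of_one_lt₀ h1
    · obtain ⟨r, rfl⟩ := hmem z hz
      refine Pool.Agent.Y809.PS.val_R hκ hx _ ((Valuation.ne_zero_iff _).2 (inv_ne_zero hne))
        (fun a => ⟨-1, ?_⟩) r (fun h => hz0 (by rw [h, map_zero]))
      rw [h2 a, map_inv₀, zpow_neg, zpow_one, inv_inv]

theorem root_tripod {κ Ω : Type} [Field κ] [IsAlgClosed κ] [CharZero κ] [Field Ω] [IsAlgClosed Ω]
    [Algebra κ Ω] {ℓ : ℕ} [hp : Fact ℓ.Prime] {X : Ω} (hX : Transcendental κ X)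
    (halg : Algebra.IsAlgebraic (IntermediateField.adjoin κ {X}) Ω) (n : ℕ) (Z : Ω)
    (hZ : Z ^ (ℓ ^ n) = X ∨ Z ^ (ℓ ^ n) = 1 - X) :
    ∃ L : IntermediateField (IntermediateField.adjoin κ {X}) Ω, Z ∈ L ∧ Lev ℓ L ∧
      ∀ W : ValuationSubring Ω, (∀ c : κ, algebraMap κ Ω c ∈ W) → IsU W X →
        IsU W (1 - X) → ∀ y ∈ L, y ≠ 0 →
          ∃ t : IntermediateField.adjoin κ {X}, t ≠ 0 ∧ IsU W (y / (t : Ω)) := by
  have hℓ0 : ℓ ≠ 0 := hp.out.ne_zero
  have hrat := ratF_adj hX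
  have hXR : X ∈ IntermediateField.adjoin κ {X} := IntermediateField.mem_adjoin_simple_self κ _
  haveI : IsAlgClosure (IntermediateField.adjoin κ {X}) Ω := ⟨inferInstance, inferInstance⟩
  haveI : Normal (IntermediateField.adjoin κ {X}) Ω := IsAlgClosure.normal _ Ω
  haveI : CharZero (IntermediateField.adjoin κ {X}) :=
    charZero_of_injective_algebraMap (algebraMap κ (IntermediateField.adjoin κ {X})).injective
  obtain ⟨K₂, hK₂⟩ : ∃ K₂ : IntermediateField (IntermediateField.adjoin κ {X}) Ω,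
    K₂ = ⊥ := ⟨_, rfl⟩
  have hmem₂ : ∀ t ∈ K₂, ∃ r : IntermediateField.adjoin κ {X}, (r : Ω) = t := by
    intro t ht
    rw [hK₂, IntermediateField.mem_bot] at ht
    exact ht
  have hX₂ : X ∈ K₂ := K₂.algebraMap_mem (⟨X, hXR⟩ : IntermediateField.adjoin κ {X})
  have hU : ∀ W : ValuationSubring Ω, (∀ c : κ, algebraMap κ Ω c ∈ W) → W ≠ ⊤ →
      ∃ π, Unf K₂ W π := by
    intro W hκ hW
    rw [hK₂]
    exact unf0 hrat W hκ hW
  have hμ : ∀ ζ : Ω, ζ ^ ℓ = 1 →
      ∃ c : IntermediateField.adjoin κ {X}, algebraMap _ Ω c = ζ := fun ζ =>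
    muR (κ := κ) hℓ0 ζ
  -- the roots
  have hbase : ∀ t : Ω, t = X ∨ t = 1 - X → t ∈ K₂ := by
    rintro t (rfl | rfl)
    · exact hX₂
    · exact sub_mem (one_mem _) hX₂
  have hApx : ∀ W : ValuationSubring Ω, (∀ c : κ, algebraMap κ Ω c ∈ W) → W ≠ ⊤ →
      W.valuation X = 1 → W.valuation (1 - X) = 1 → ∀ (n : ℕ) (Z : Ω),
      (Z ^ (ℓ ^ n) = X ∨ Z ^ (ℓ ^ n) = 1 - X) → Apx K₂ W Z := by
    intro W hκ hW h1 h2
    obtain ⟨π, hπ⟩ := hU W hκ hW
    intro n
    induction n with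
    | zero =>
      intro Z hZ
      rw [pow_zero, pow_one] at hZ
      exact Apx.of_mem (hbase Z hZ)
    | succ n ih =>
      intro Z hZ
      have hv : W.valuation Z = 1 := by
        have h3 : W.valuation Z ^ (ℓ ^ (n + 1)) = 1 := by
          rw [← map_pow]
          rcases hZ with h | h
          · rw [h, h1]
          · rw [h, h2]
        exact (pow_eq_one_iff_of_nonneg zero_le (pow_ne_zero _ hℓ0)).1 h3
      have h3 : Apx K₂ W (Z ^ ℓ) := ih (Z ^ ℓ) (by
        rw [← pow_mul, ← pow_succ']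
        exact hZ)
      refine Apx.root hπ (hres hrat K₂ W hκ hW) hℓ0 (vl hℓ0 W hκ) Z h3 0 ?_
      rw [map_pow, hv, one_pow, mul_zero, zpow_zero]
  have hPro : ∀ (n : ℕ) (Z : Ω), (Z ^ (ℓ ^ n) = X ∨ Z ^ (ℓ ^ n) = 1 - X) →
      Pro ℓ (IntermediateField.adjoin κ {X}) Z := by
    intro n
    induction n with
    | zero =>
      intro Z hZ
      rw [pow_zero, pow_one] at hZ
      obtain ⟨r, rfl⟩ := hmem₂ Z (hbase Z hZ)
      exact Pro.base ℓ r
    | succ n ih =>
      intro Z hZ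
      refine Pro.root hμ (ih (Z ^ ℓ) ?_)
      rw [← pow_mul, ← pow_succ']
      exact hZ
  let S : IntermediateField (IntermediateField.adjoin κ {X}) Ω :=
    { carrier := {y | Pro ℓ (IntermediateField.adjoin κ {X}) y ∧
        ∀ W : ValuationSubring Ω, (∀ c : κ, algebraMap κ Ω c ∈ W) → W ≠ ⊤ →
          W.valuation X = 1 → W.valuation (1 - X) = 1 → Apx K₂ W y}
      mul_mem' := fun {a b} ha hb => ⟨ha.1.mul hb.1, fun W h1 h2 h3 h4 =>
        (ha.2 W h1 h2 h3 h4).mul (hb.2 W h1 h2 h3 h4)⟩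
      add_mem' := fun {a b} ha hb => ⟨ha.1.add hb.1, fun W h1 h2 h3 h4 =>
        (ha.2 W h1 h2 h3 h4).add (hb.2 W h1 h2 h3 h4)⟩
      algebraMap_mem' := fun r => ⟨Pro.base ℓ r, fun W h1 h2 h3 h4 =>
        Apx.of_mem (algebraMap_mem _ _)⟩
      inv_mem' := fun a ha => ⟨ha.1.inv, fun W h1 h2 h3 h4 => (ha.2 W h1 h2 h3 h4).inv⟩ }
  have hS : ∀ y, y ∈ S ↔ Pro ℓ (IntermediateField.adjoin κ {X}) y ∧
        ∀ W : ValuationSubring Ω, (∀ c : κ, algebraMap κ Ω c ∈ W) → W ≠ ⊤ →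
          W.valuation X = 1 → W.valuation (1 - X) = 1 → Apx K₂ W y := fun y => Iff.rfl
  have hzS : Z ∈ S := by
    rw [hS]
    exact ⟨hPro n Z hZ, fun W hκ hW h1 h2 => hApx W hκ hW h1 h2 n Z hZ⟩
  have hSstab : ∀ σ : Ω ≃ₐ[IntermediateField.adjoin κ {X}] Ω, ∀ y ∈ S, σ y ∈ S := by
    intro γ y hy
    rw [hS] at hy ⊢
    have hγu : γ X = X := γ.commutes ⟨X, hXR⟩
    have hcom : ∀ (W : ValuationSubring Ω) (t : Ω), γ t = t → W.valuation t = 1 →
        (W.comap (γ : Ω →+* Ω)).valuation t = 1 := by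
      intro W t ht h1
      rw [← isU_iff] at h1 ⊢
      refine ⟨h1.1, ?_, ?_⟩
      · rw [ValuationSubring.mem_comap]
        change γ t ∈ W
        rw [ht]
        exact h1.2.1
      · rw [ValuationSubring.mem_comap]
        change γ t⁻¹ ∈ W
        rw [map_inv₀, ht]
        exact h1.2.2
    refine ⟨hy.1.conj γ, fun W hκ hW h1 h2 => Apx.conj (fun γ t ht => ?_) γ (hy.2 _ ?_ ?_ ?_ ?_)⟩
    · obtain ⟨r, rfl⟩ := hmem₂ t ht
      have h3 : γ (r : Ω) = (r : Ω) := γ.commutes r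
      rw [h3]
      exact ht
    · intro c
      rw [ValuationSubring.mem_comap]
      have h3 : (γ : Ω →+* Ω) (algebraMap κ Ω c) = algebraMap κ Ω c :=
        γ.commutes (algebraMap κ (IntermediateField.adjoin κ {X}) c)
      rw [h3]
      exact hκ c
    · intro h
      apply hW
      ext y
      simp only [ValuationSubring.mem_top, iff_true]
      have h3 : γ.symm y ∈ W.comap (γ : Ω →+* Ω) := by rw [h]; trivial
      rw [ValuationSubring.mem_comap] at h3
      simpa using h3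
    · exact hcom W _ hγu h1
    · exact hcom W _ (by rw [map_sub, map_one, hγu]) h2
  obtain ⟨L, hzL, hLS, hL⟩ := exists_lev (ℓ := ℓ) S hSstab (fun θ hθ σ => by
    obtain ⟨k, hk⟩ := ((hS θ).1 hθ).1
    exact ⟨k, hk σ 1⟩) hzS
  refine ⟨L, hzL, hL, fun W hκ hW1 hW2 y hy hy0 => ?_⟩
  by_cases hW : W = ⊤
  · refine ⟨1, one_ne_zero, ?_, ?_, ?_⟩
    · change y / (1 : Ω) ≠ 0
      rw [div_one]; exact hy0
    · rw [hW]; trivial
    · rw [hW]; trivial
  · rw [isU_iff] at hW1 hW2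
    obtain ⟨π, h4⟩ := hU W hκ hW
    obtain ⟨t, ht, ht0, h1⟩ := (((hS y).1 (hLS hy)).2 W hκ hW hW1 hW2).val h4 hy0
    obtain ⟨r, rfl⟩ := hmem₂ t ht
    refine ⟨r, fun h => ht0 (by rw [h]; rfl), ?_⟩
    rw [isU_iff, map_div₀, h1, div_self]
    exact ((Valuation.pos_iff _).2 ht0).ne'

/-- the same over a field of characteristic zero -/
theorem root_mem {ℓ : ℕ} [hp : Fact ℓ.Prime] {k F Ω : Type} [Field k] [CharZero k] [Field F]
    [Field Ω] [Algebra k F] [Algebra F Ω] [Algebra k Ω] [IsScalarTower k F Ω] [IsAlgClosed Ω]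
    [Algebra.IsAlgebraic F Ω]
    (x : F) (hx : Transcendental k x)
    (hF : Algebra.IsAlgebraic (IntermediateField.adjoin k {x}) F) (n : ℕ) (z : Ω)
    (hz : z ^ (ℓ ^ n) = algebraMap F Ω x ∨ z ^ (ℓ ^ n) = 1 - algebraMap F Ω x) :
    ∃ L : IntermediateField (IntermediateField.adjoin (algebraicClosure k Ω)
        {algebraMap F Ω x}) Ω, z ∈ L ∧ Lev ℓ L ∧
      ∀ W : ValuationSubring Ω, (∀ c : k, algebraMap k Ω c ∈ W) → IsU W (algebraMap F Ω x) →
        IsU W (1 - algebraMap F Ω x) → ∀ y ∈ L, y ≠ 0 →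
          ∃ t ∈ IntermediateField.adjoin (algebraicClosure k Ω) {algebraMap F Ω x},
            t ≠ 0 ∧ IsU W (y / t) := by
  haveI : IsAlgClosure k (algebraicClosure k Ω) := inferInstance
  haveI : IsAlgClosed (algebraicClosure k Ω) := IsAlgClosure.isAlgClosed k
  haveI : CharZero (algebraicClosure k Ω) :=
    charZero_of_injective_algebraMap (algebraMap k (algebraicClosure k Ω)).injective
  have hxΩ : Transcendental k (algebraMap F Ω x) :=
    (transcendental_algebraMap_iff (R := k) (algebraMap F Ω).injective (a := x)).2 hx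
  have halg : Algebra.IsAlgebraic
      (IntermediateField.adjoin (algebraicClosure k Ω) {algebraMap F Ω x}) Ω := by
    let R : IntermediateField k Ω := (IntermediateField.adjoin (algebraicClosure k Ω)
      {algebraMap F Ω x}).restrictScalars k
    have h2 : Algebra.IsAlgebraic R Ω := Pool.Agent.Y158.FQ.alg_over hF R
      (IntermediateField.mem_adjoin_simple_self (algebraicClosure k Ω) (algebraMap F Ω x))
    exact h2
  obtain ⟨L, h5, h6, h7⟩ := root_tripod (κ := algebraicClosure k Ω) (trans_up hxΩ) halg n z hz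
  refine ⟨L, h5, h6, fun W hW h8 h9 y hy hy0 => ?_⟩
  obtain ⟨t, ht0, ht⟩ := h7 W (fun c => Pool.Agent.Y529.PS.IN.int_mem W hW c.2) h8 h9 y hy hy0
  exact ⟨t, t.2, fun h => ht0 (Subtype.ext h), ht⟩

end Pool.Agent.N168.TP
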